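import Pool.Agent.L0h52.BZ.Stm

/-!
# BZ, BND: the generating function on a ray
-/

set_option autoImplicit false

open Filter Topology Asymptotics

namespace Pool.Agent.L0h24.BZ

open Pool.Agent.L0h52.BZ

lemma uu_re (θ : ℝ) : (uu θ).re = Real.cos θ := by
  unfold uu
  rw [Complex.exp_ofReal_mul_I_re]

lemma uu_norm (θ : ℝ) : ‖uu θ‖ = 1 := by
  unfold uu
  exact Complex.norm_exp_ofReal_mul_I θ

lemma cos_pos' {θ : ℝ} (h : |θ| < Real.pi / 2) : 0 < Real.cos θ := by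
  rw [abs_lt] at h
  exact Real.cos_pos_of_mem_Ioo ⟨by linarith [h.1], h.2⟩

lemma re_ray (θ y : ℝ) : ((y : ℂ) * uu θ).re = y * Real.cos θ := by
  rw [Complex.re_ofReal_mul, uu_re]

lemma re_pos {θ y : ℝ} (h : |θ| < Real.pi / 2) (hy : 0 < y) : 0 < ((y : ℂ) * uu θ).re := by
  rw [re_ray]
  exact mul_pos hy (cos_pos' h)

lemma norm_ray {θ y : ℝ} (hy : 0 < y) : ‖(y : ℂ) * uu θ‖ = y := by
  rw [norm_mul, uu_norm, mul_one, Complex.norm_real, Real.norm_of_nonneg hy.le]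

lemma exp_lt_one {z : ℂ} (hz : 0 < z.re) : ‖Complex.exp (-z)‖ < 1 := by
  rw [Complex.norm_exp, Complex.neg_re]
  exact Real.exp_lt_one_iff.2 (by linarith)

lemma one_sub_ne {z : ℂ} (hz : 0 < z.re) : 1 - Complex.exp (-z) ≠ 0 := by
  intro h
  have h1 := exp_lt_one hz
  rw [← sub_eq_zero.1 h, norm_one] at h1
  exact lt_irrefl _ h1

lemma mul_re_pos {ω : ℝ} (hω : 0 < ω) {z : ℂ} (hz : 0 < z.re) : 0 < ((ω : ℂ) * z).re := by
  rw [Complex.re_ofReal_mul]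
  exact mul_pos hω hz

lemma ne_of_re {z : ℂ} (hz : 0 < z.re) : z ≠ 0 := by
  rintro rfl
  simp at hz

/-- continuity in the right half plane -/
lemma hh_cont {a ω : ℝ} (hω : 0 < ω) : ContinuousOn (hh a ω) {z : ℂ | 0 < z.re} := by
  unfold hh ff
  have hω0 : (ω : ℂ) ≠ 0 := Complex.ofReal_ne_zero.2 hω.ne'
  refine ContinuousOn.sub (ContinuousOn.div (by fun_prop) (by fun_prop) ?_)
    (ContinuousOn.div (by fun_prop) (by fun_prop) ?_)
  · intro z hz
    exact mul_ne_zero (one_sub_ne hz) (one_sub_ne (mul_re_pos hω hz))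
  · intro z hz
    exact mul_ne_zero hω0 (pow_ne_zero 2 (ne_of_re hz))

lemma hr_cont {a ω θ : ℝ} (hω : 0 < ω) (hθ : |θ| < Real.pi / 2) :
    ContinuousOn (hr a ω θ) (Set.Ioi 0) := by
  unfold hr
  refine (hh_cont (a := a) hω).comp (by fun_prop) ?_
  intro y hy
  exact re_pos hθ hy

/-- the bound near zero -/
lemma hh_small {a ω : ℝ} (ha : 0 < a) (hω : 0 < ω) {z : ℂ} (hz : 0 < z.re) (h1 : ‖z‖ ≤ 1 / 2)
    (h2 : ω * ‖z‖ ≤ 1 / 2) (h3 : a * ‖z‖ ≤ 1) :
    ‖hh a ω z‖ ≤ (4 * (2 * ω ^ 2 + ω + 2 * a * ω) / ω ^ 2 + 2 / ω) * ‖z‖⁻¹ := by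
  have hz0 : z ≠ 0 := ne_of_re hz
  have hnz : 0 < ‖z‖ := norm_pos_iff.2 hz0
  have hω0 : (ω : ℂ) ≠ 0 := Complex.ofReal_ne_zero.2 hω.ne'
  obtain ⟨r, hr⟩ : ∃ r, r = ‖z‖ := ⟨_, rfl⟩
  rw [← hr] at h1 h2 h3 hnz
  set x := 1 - Complex.exp (-z) with hx
  set x' := 1 - Complex.exp (-((ω : ℂ) * z)) with hx'
  have hx0 : x ≠ 0 := one_sub_ne hz
  have hx0' : x' ≠ 0 := one_sub_ne (mul_re_pos hω hz)
  have nz : ‖-z‖ = r := by rw [norm_neg, hr]
  have nwz : ‖-((ω : ℂ) * z)‖ = ω * r := by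
    rw [norm_neg, norm_mul, Complex.norm_real, Real.norm_of_nonneg hω.le, hr]
  -- the two factors
  have A : ‖x - z‖ ≤ r ^ 2 := by
    have h := Complex.norm_exp_sub_one_sub_id_le (x := -z) (by rw [nz]; linarith)
    rw [nz] at h
    have e : x - z = -(Complex.exp (-z) - 1 - -z) := by rw [hx]; ring
    rw [e, norm_neg]
    exact h
  have B : ‖x' - ω * z‖ ≤ (ω * r) ^ 2 := by
    have h := Complex.norm_exp_sub_one_sub_id_le (x := -((ω : ℂ) * z)) (by rw [nwz]; linarith)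
    rw [nwz] at h
    have e : x' - ω * z = -(Complex.exp (-((ω : ℂ) * z)) - 1 - -((ω : ℂ) * z)) := by rw [hx']; ring
    rw [e, norm_neg]
    exact h
  have C : ‖Complex.exp (-((a : ℂ) * z)) - 1‖ ≤ 2 * (a * r) := by
    have n1 : ‖-((a : ℂ) * z)‖ = a * r := by
      rw [norm_neg, norm_mul, Complex.norm_real, Real.norm_of_nonneg ha.le, hr]
    have h := Complex.norm_exp_sub_one_le (x := -((a : ℂ) * z)) (by rw [n1]; exact h3)
    rwa [n1] at h
  have D : ‖Complex.exp (-z) - 1‖ ≤ 2 * r := by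
    have h := Complex.norm_exp_sub_one_le (x := -z) (by rw [nz]; linarith)
    rwa [nz] at h
  have nx : r / 2 ≤ ‖x‖ := by
    have e : z = x - (x - z) := by ring
    have h := norm_sub_le x (x - z)
    rw [← e, ← hr] at h
    nlinarith
  have nx' : ω * r / 2 ≤ ‖x'‖ := by
    have e : (ω : ℂ) * z = x' - (x' - ω * z) := by ring
    have h := norm_sub_le x' (x' - ω * z)
    rw [← e, norm_mul, Complex.norm_real, Real.norm_of_nonneg hω.le, ← hr] at h
    nlinarith [mul_pos hω hnz]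
  -- the difference
  have key : hh a ω z = ((ω : ℂ) * z ^ 2 * (Complex.exp (-((a : ℂ) * z)) - 1) -
      (z * (x' - ω * z) + ω * z * (x - z) + (x - z) * (x' - ω * z))) / ((ω : ℂ) * z ^ 2 * (x * x')) -
      (Complex.exp (-z) - 1) / ((ω : ℂ) * z ^ 2) := by
    unfold hh ff
    rw [← hx, ← hx']
    field_simp
    ring
  have num : ‖(ω : ℂ) * z ^ 2 * (Complex.exp (-((a : ℂ) * z)) - 1) -
      (z * (x' - ω * z) + ω * z * (x - z) + (x - z) * (x' - ω * z))‖ ≤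
      (2 * ω ^ 2 + ω + 2 * a * ω) * r ^ 3 := by
    have i1 : ‖(ω : ℂ) * z ^ 2 * (Complex.exp (-((a : ℂ) * z)) - 1)‖ ≤ ω * r ^ 2 * (2 * (a * r)) := by
      rw [norm_mul, norm_mul, norm_pow, Complex.norm_real, Real.norm_of_nonneg hω.le, ← hr]
      gcongr
    have i2 : ‖z * (x' - ω * z)‖ ≤ r * (ω * r) ^ 2 := by
      rw [norm_mul, ← hr]
      gcongr
    have i3 : ‖ω * z * (x - z)‖ ≤ ω * r * r ^ 2 := by
      rw [norm_mul, norm_mul, Complex.norm_real, Real.norm_of_nonneg hω.le, ← hr]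
      gcongr
    have i4 : ‖(x - z) * (x' - ω * z)‖ ≤ r ^ 2 * (ω * r) ^ 2 := by
      rw [norm_mul]
      gcongr
    have j1 := norm_sub_le ((ω : ℂ) * z ^ 2 * (Complex.exp (-((a : ℂ) * z)) - 1))
      (z * (x' - ω * z) + ω * z * (x - z) + (x - z) * (x' - ω * z))
    have j2 := norm_add_le (z * (x' - ω * z) + ω * z * (x - z)) ((x - z) * (x' - ω * z))
    have j3 := norm_add_le (z * (x' - ω * z)) (ω * z * (x - z))
    have j4 : r ^ 2 * (ω * r) ^ 2 ≤ ω ^ 2 * r ^ 3 := by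
      have : 0 < ω ^ 2 * r ^ 3 := by positivity
      nlinarith
    nlinarith
  have den : ω ^ 2 * r ^ 4 / 4 ≤ ‖(ω : ℂ) * z ^ 2 * (x * x')‖ := by
    rw [norm_mul, norm_mul, norm_mul, norm_pow, Complex.norm_real, Real.norm_of_nonneg hω.le, ← hr]
    have h5 : r / 2 * (ω * r / 2) ≤ ‖x‖ * ‖x'‖ := by gcongr
    have h6 : ω * r ^ 2 * (r / 2 * (ω * r / 2)) ≤ ω * r ^ 2 * (‖x‖ * ‖x'‖) := by gcongr
    nlinarith
  rw [key]
  refine (norm_sub_le _ _).trans ?_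
  rw [add_mul]
  refine add_le_add ?_ ?_
  · rw [norm_div]
    calc _ ≤ ((2 * ω ^ 2 + ω + 2 * a * ω) * r ^ 3) / (ω ^ 2 * r ^ 4 / 4) := by gcongr
      _ = 4 * (2 * ω ^ 2 + ω + 2 * a * ω) / ω ^ 2 * ‖z‖⁻¹ := by
        rw [← hr]
        field_simp
  · rw [norm_div, norm_mul, norm_pow, Complex.norm_real, Real.norm_of_nonneg hω.le, ← hr]
    calc _ ≤ 2 * r / (ω * r ^ 2) := by gcongr
      _ = 2 / ω * r⁻¹ := by field_simp

lemma hr_small {a ω θ : ℝ} (ha : 0 < a) (hω : 0 < ω) (hθ : |θ| < Real.pi / 2) :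
    hr a ω θ =O[𝓝[>] 0] (fun y : ℝ => y ^ (-1 : ℝ)) := by
  refine IsBigO.of_bound (4 * (2 * ω ^ 2 + ω + 2 * a * ω) / ω ^ 2 + 2 / ω) ?_
  have h0 : ∀ᶠ y : ℝ in 𝓝[>] 0, y < min (1 / 2) (min (1 / (2 * ω)) (1 / a)) := by
    refine nhdsWithin_le_nhds (gt_mem_nhds ?_)
    have h1 : 0 < 1 / (2 * ω) := by positivity
    have h2 : 0 < 1 / a := by positivity
    exact lt_min (by norm_num) (lt_min h1 h2)
  filter_upwards [h0, self_mem_nhdsWithin] with y hy hy0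
  have hy0' : 0 < y := hy0
  obtain ⟨h1, h2⟩ := lt_min_iff.1 hy
  obtain ⟨h2, h3⟩ := lt_min_iff.1 h2
  have n := norm_ray (θ := θ) hy0'
  have key := hh_small ha hω (re_pos hθ hy0') (by rw [n]; exact h1.le) (by
    rw [n]
    rw [lt_div_iff₀ (by positivity)] at h2
    linarith) (by
    rw [n]
    rw [lt_div_iff₀ ha] at h3
    linarith)
  rw [n] at key
  rw [Real.rpow_neg_one, Real.norm_of_nonneg (inv_nonneg.2 hy0'.le)]
  exact key

/-- the bound for large `y` -/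
lemma hr_large {a ω θ : ℝ} (ha : 0 < a) (hω : 0 < ω) (hθ : |θ| < Real.pi / 2) :
    hr a ω θ =O[atTop] fun y : ℝ => Real.exp (-(min a 1 * Real.cos θ) * y) := by
  have hc := cos_pos' hθ
  refine IsBigO.of_bound (4 + 1 / ω) ?_
  have h1 : ∀ᶠ y : ℝ in atTop, Real.log 2 / Real.cos θ ≤ y := eventually_ge_atTop _
  have h2 : ∀ᶠ y : ℝ in atTop, Real.log 2 / (ω * Real.cos θ) ≤ y := eventually_ge_atTop _
  filter_upwards [h1, h2, eventually_ge_atTop 1] with y hy1 hy2 hy3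
  have hy0 : 0 < y := by linarith
  rw [div_le_iff₀ hc] at hy1
  rw [div_le_iff₀ (mul_pos hω hc)] at hy2
  obtain ⟨z, hz⟩ : ∃ z, z = (y : ℂ) * uu θ := ⟨_, rfl⟩
  have hzre : z.re = y * Real.cos θ := by rw [hz, re_ray]
  have hzn : ‖z‖ = y := by rw [hz, norm_ray hy0]
  have ex : ∀ t : ℝ, ‖Complex.exp (-((t : ℂ) * z))‖ = Real.exp (-(t * (y * Real.cos θ))) := by
    intro t
    rw [Complex.norm_exp, Complex.neg_re, Complex.re_ofReal_mul, hzre]
  have ex1 : ‖Complex.exp (-z)‖ = Real.exp (-(y * Real.cos θ)) := by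
    rw [Complex.norm_exp, Complex.neg_re, hzre]
  have half : ∀ t : ℝ, Real.log 2 ≤ t → Real.exp (-t) ≤ 1 / 2 := by
    intro t ht
    rw [one_div, ← Real.exp_log (x := (2 : ℝ)⁻¹) (by norm_num), Real.log_inv]
    exact Real.exp_le_exp.2 (neg_le_neg ht)
  have d1 : 1 / 2 ≤ ‖1 - Complex.exp (-z)‖ := by
    have h := norm_sub_norm_le (1 : ℂ) (Complex.exp (-z))
    rw [norm_one, ex1] at h
    have := half _ hy1
    linarith
  have d2 : 1 / 2 ≤ ‖1 - Complex.exp (-((ω : ℂ) * z))‖ := by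
    have h := norm_sub_norm_le (1 : ℂ) (Complex.exp (-((ω : ℂ) * z)))
    rw [norm_one, ex] at h
    have := half (ω * (y * Real.cos θ)) (by linarith)
    linarith
  have e1 : ‖ff a ω z‖ ≤ 4 * Real.exp (-(min a 1 * Real.cos θ) * y) := by
    unfold ff
    rw [norm_div, norm_mul, ex]
    have h5 : (1 / 2 : ℝ) * (1 / 2) ≤ ‖1 - Complex.exp (-z)‖ * ‖1 - Complex.exp (-((ω : ℂ) * z))‖ := by
      gcongr
    have h6 : Real.exp (-(a * (y * Real.cos θ))) ≤ Real.exp (-(min a 1 * Real.cos θ) * y) := by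
      apply Real.exp_le_exp.2
      have : min a 1 * (Real.cos θ * y) ≤ a * (Real.cos θ * y) := by
        gcongr
        exact min_le_left _ _
      linarith
    calc _ ≤ Real.exp (-(min a 1 * Real.cos θ) * y) / (1 / 2 * (1 / 2)) := by gcongr
      _ = 4 * Real.exp (-(min a 1 * Real.cos θ) * y) := by ring
  have e2 : ‖Complex.exp (-z) / ((ω : ℂ) * z ^ 2)‖ ≤ 1 / ω * Real.exp (-(min a 1 * Real.cos θ) * y) := by
    rw [norm_div, norm_mul, norm_pow, Complex.norm_real, Real.norm_of_nonneg hω.le, hzn, ex1]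
    have h6 : Real.exp (-(y * Real.cos θ)) ≤ Real.exp (-(min a 1 * Real.cos θ) * y) := by
      apply Real.exp_le_exp.2
      have : min a 1 * (Real.cos θ * y) ≤ 1 * (Real.cos θ * y) := by
        gcongr
        exact min_le_right _ _
      linarith
    have h7 : ω ≤ ω * y ^ 2 := by
      have : 1 ≤ y ^ 2 := by nlinarith
      nlinarith
    calc _ ≤ Real.exp (-(min a 1 * Real.cos θ) * y) / ω := by gcongr
      _ = 1 / ω * Real.exp (-(min a 1 * Real.cos θ) * y) := by ring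
  rw [Real.norm_of_nonneg (Real.exp_pos _).le]
  unfold hr hh
  rw [← hz]
  refine (norm_sub_le _ _).trans ?_
  rw [add_mul]
  exact add_le_add e1 e2

/-- **BND** -/
theorem t_BND : S_BND := by
  intro a ω θ ha hω hθ
  refine ⟨hr_cont hω hθ, hr_small ha hω hθ, min a 1 * Real.cos θ, ?_, hr_large ha hω hθ⟩
  have := cos_pos' hθ
  have h1 : 0 < min a 1 := lt_min ha one_pos
  positivity

end Pool.Agent.L0h24.BZ
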