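import Pool.Agent.L0h24.BZ.Bnd
import Pool.Agent.H581R3.GPR.Rot

/-!
# BZ, MEL: the Mellin transform
-/

set_option autoImplicit false

open Filter Topology Asymptotics MeasureTheory Set

namespace Pool.Agent.L0h24.BZ

open Pool.Agent.L0h52.BZ
open Pool.Agent.H581R3.GPR.Rot (rot_formula cpow_exp_meas)

lemma uu_ne (θ : ℝ) : uu θ ≠ 0 := by
  unfold uu
  exact Complex.exp_ne_zero _

/-- the power of the inverse of a number on the ray -/
lemma inv_ray {θ l : ℝ} (hθ : |θ| < Real.pi / 2) (hl : 0 < l) (s : ℂ) :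
    (1 / ((l : ℂ) * uu θ)) ^ s = (l : ℂ) ^ (-s) * Complex.exp (-((θ : ℂ) * Complex.I * s)) := by
  have hl0 : (l : ℂ) ≠ 0 := Complex.ofReal_ne_zero.2 hl.ne'
  have hu0 := uu_ne θ
  have h1 : 1 / ((l : ℂ) * uu θ) = Complex.exp (-(Real.log l : ℂ) - θ * Complex.I) := by
    rw [Complex.exp_sub, Complex.exp_neg, ← Complex.ofReal_exp, Real.exp_log hl]
    unfold uu
    field_simp
  have h2 : Complex.log (1 / ((l : ℂ) * uu θ)) = -(Real.log l : ℂ) - θ * Complex.I := by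
    rw [h1, Complex.log_exp]
    · have : (-(Real.log l : ℂ) - θ * Complex.I).im = -θ := by simp
      rw [this]
      have := (abs_lt.1 hθ).2
      linarith [Real.pi_pos]
    · have : (-(Real.log l : ℂ) - θ * Complex.I).im = -θ := by simp
      rw [this]
      have := (abs_lt.1 hθ).1
      linarith [Real.pi_pos]
  rw [Complex.cpow_def_of_ne_zero (by rw [h1]; exact Complex.exp_ne_zero _), h2,
    Complex.cpow_def_of_ne_zero hl0, ← Complex.exp_add, ← Complex.ofReal_log hl.le]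
  congr 1
  ring

lemma lam_pos {a ω : ℝ} (ha : 0 < a) (hω : 0 < ω) (m : ℕ × ℕ) : 0 < lam a ω m := by
  unfold lam
  positivity

/-- the integrals of the terms -/
lemma int_term {θ l : ℝ} (hθ : |θ| < Real.pi / 2) (hl : 0 < l) {s : ℂ} (hs : 0 < s.re) :
    ∫ y in Ioi (0 : ℝ), (y : ℂ) ^ (s - 1) * Complex.exp (-((l : ℂ) * ((y : ℂ) * uu θ))) =
      (l : ℂ) ^ (-s) * Complex.exp (-((θ : ℂ) * Complex.I * s)) * Complex.Gamma s := by
  rw [← inv_ray hθ hl, ← rot_formula hs (r := (l : ℂ) * uu θ) (by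
    rw [Complex.re_ofReal_mul, uu_re]
    exact mul_pos hl (cos_pos' hθ))]
  refine setIntegral_congr_fun measurableSet_Ioi fun y _ => ?_
  show _ = (y : ℂ) ^ (s - 1) * Complex.exp (-((l : ℂ) * uu θ * y))
  congr 2
  ring

lemma norm_term {θ l : ℝ} {s : ℂ} {y : ℝ} (hy : 0 < y) :
    ‖(y : ℂ) ^ (s - 1) * Complex.exp (-((l : ℂ) * ((y : ℂ) * uu θ)))‖ =
      y ^ (s.re - 1) * Real.exp (-(l * Real.cos θ * y)) := by
  rw [norm_mul, Complex.norm_cpow_eq_rpow_re_of_pos hy, Complex.norm_exp, Complex.neg_re,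
    Complex.re_ofReal_mul, re_ray]
  simp only [Complex.sub_re, Complex.one_re]
  congr 3
  ring

lemma meas_term {θ l : ℝ} {s : ℂ} :
    AEStronglyMeasurable (fun y : ℝ => (y : ℂ) ^ (s - 1) *
      Complex.exp (-((l : ℂ) * ((y : ℂ) * uu θ)))) (volume.restrict (Ioi 0)) := by
  refine (cpow_exp_meas s ((l : ℂ) * uu θ)).congr (Eventually.of_forall fun y => ?_)
  show (y : ℂ) ^ (s - 1) * Complex.exp (-((l : ℂ) * uu θ * y)) = _
  congr 2
  ring

lemma integrable_term {θ l : ℝ} (hθ : |θ| < Real.pi / 2) (hl : 0 < l) {s : ℂ} (hs : 0 < s.re) :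
    IntegrableOn (fun y : ℝ => (y : ℂ) ^ (s - 1) *
      Complex.exp (-((l : ℂ) * ((y : ℂ) * uu θ)))) (Ioi 0) := by
  have h := Pool.Agent.H581R3.GPR.Rot.int_rpow_exp (s := s.re - 1) (b := l * Real.cos θ)
    (by linarith) (mul_pos hl (cos_pos' hθ))
  refine Integrable.mono' h meas_term ?_
  refine (ae_restrict_iff' measurableSet_Ioi).2 (Eventually.of_forall fun y hy => ?_)
  rw [norm_term hy]

lemma int_norm_term {θ l : ℝ} (hθ : |θ| < Real.pi / 2) (hl : 0 < l) {s : ℂ} (hs : 0 < s.re) :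
    ∫ y in Ioi (0 : ℝ), ‖(y : ℂ) ^ (s - 1) * Complex.exp (-((l : ℂ) * ((y : ℂ) * uu θ)))‖ =
      l ^ (-s.re) * ((Real.cos θ) ^ (-s.re) * Real.Gamma s.re) := by
  have hc := cos_pos' hθ
  rw [setIntegral_congr_fun (g := fun y : ℝ => y ^ (s.re - 1) * Real.exp (-(l * Real.cos θ * y)))
    measurableSet_Ioi fun y hy => norm_term hy]
  rw [Real.integral_rpow_mul_exp_neg_mul_Ioi hs (mul_pos hl hc), one_div,
    Real.inv_rpow (mul_pos hl hc).le, ← Real.rpow_neg (mul_pos hl hc).le, Real.mul_rpow hl.le hc.le]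
  ring

/-- the Mellin transform of the generating function -/
theorem mellin_ff (hG : S_GEO) (hS : S_SUM) {a ω θ : ℝ} (ha : 0 < a) (hω : 0 < ω)
    (hθ : |θ| < Real.pi / 2) {s : ℂ} (hs : 2 < s.re) :
    mellin (fun y : ℝ => ff a ω ((y : ℂ) * uu θ)) s =
      Complex.exp (-((θ : ℂ) * Complex.I * s)) * (Complex.Gamma s *
        ∑' m : ℕ × ℕ, ((lam a ω m : ℝ) : ℂ) ^ (-s)) := by
  have hs0 : 0 < s.re := by linarith
  have h1 : Summable fun m : ℕ × ℕ => ∫ y in Ioi (0 : ℝ), ‖(y : ℂ) ^ (s - 1) *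
      Complex.exp (-(((lam a ω m : ℝ) : ℂ) * ((y : ℂ) * uu θ)))‖ := by
    have h2 := (hS a ω ha hω s.re hs).mul_right ((Real.cos θ) ^ (-s.re) * Real.Gamma s.re)
    refine h2.congr fun m => ?_
    rw [int_norm_term hθ (lam_pos ha hω m) hs0]
  have h3 := hasSum_integral_of_summable_integral_norm
    (fun m : ℕ × ℕ => integrable_term hθ (lam_pos ha hω m) hs0) h1
  have h4 := h3.tsum_eq
  unfold mellin
  have h5 : ∫ y in Ioi (0 : ℝ), (y : ℂ) ^ (s - 1) • ff a ω ((y : ℂ) * uu θ) =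
      ∫ y in Ioi (0 : ℝ), ∑' m : ℕ × ℕ, (y : ℂ) ^ (s - 1) *
        Complex.exp (-(((lam a ω m : ℝ) : ℂ) * ((y : ℂ) * uu θ))) := by
    refine setIntegral_congr_fun measurableSet_Ioi fun y hy => ?_
    show (y : ℂ) ^ (s - 1) • ff a ω ((y : ℂ) * uu θ) = _
    rw [smul_eq_mul, ← (hG a ω ha hω _ (re_pos hθ hy)).tsum_eq, tsum_mul_left]
  rw [h5, ← h4]
  have h6 : ∀ m : ℕ × ℕ, ∫ y in Ioi (0 : ℝ), (y : ℂ) ^ (s - 1) *
      Complex.exp (-(((lam a ω m : ℝ) : ℂ) * ((y : ℂ) * uu θ))) =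
      ((lam a ω m : ℝ) : ℂ) ^ (-s) * (Complex.exp (-((θ : ℂ) * Complex.I * s)) * Complex.Gamma s) := by
    intro m
    rw [int_term hθ (lam_pos ha hω m) hs0]
    ring
  simp only [h6]
  rw [tsum_mul_right]
  ring

/-- the second part -/
lemma second {ω θ : ℝ} (hω : 0 < ω) {s : ℂ} {y : ℝ} (hy : 0 < y) :
    (y : ℂ) ^ (s - 1) * (Complex.exp (-((y : ℂ) * uu θ)) / ((ω : ℂ) * ((y : ℂ) * uu θ) ^ 2)) =
    ((y : ℂ) ^ ((s - 2) - 1) * Complex.exp (-(((1 : ℝ) : ℂ) * ((y : ℂ) * uu θ)))) *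
      (1 / ((ω : ℂ) * uu θ ^ 2)) := by
  have hy0 : (y : ℂ) ≠ 0 := Complex.ofReal_ne_zero.2 hy.ne'
  have hω0 : (ω : ℂ) ≠ 0 := Complex.ofReal_ne_zero.2 hω.ne'
  have hu0 := uu_ne θ
  have e : (y : ℂ) ^ (s - 1) = (y : ℂ) ^ ((s - 2) - 1) * (y : ℂ) ^ 2 := by
    rw [← Complex.cpow_ofNat, ← Complex.cpow_add _ _ hy0]
    congr 1
    ring
  rw [e, Complex.ofReal_one, one_mul]
  field_simp

theorem mellin_second {ω θ : ℝ} (hω : 0 < ω) (hθ : |θ| < Real.pi / 2) {s : ℂ} (hs : 2 < s.re) :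
    MellinConvergent (fun y : ℝ => Complex.exp (-((y : ℂ) * uu θ)) /
      ((ω : ℂ) * ((y : ℂ) * uu θ) ^ 2)) s ∧
    mellin (fun y : ℝ => Complex.exp (-((y : ℂ) * uu θ)) / ((ω : ℂ) * ((y : ℂ) * uu θ) ^ 2)) s =
      Complex.exp (-((θ : ℂ) * Complex.I * s)) * (Complex.Gamma (s - 2) / (ω : ℂ)) := by
  have hs2 : 0 < (s - 2).re := by
    simp only [Complex.sub_re, Complex.re_ofNat]
    linarith
  have hω0 : (ω : ℂ) ≠ 0 := Complex.ofReal_ne_zero.2 hω.ne'
  have hu0 := uu_ne θ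
  constructor
  · have h1 := (integrable_term (l := 1) hθ one_pos hs2).mul_const (1 / ((ω : ℂ) * uu θ ^ 2))
    refine IntegrableOn.congr_fun h1 (fun y hy => ?_) measurableSet_Ioi
    simp only [smul_eq_mul]
    rw [second hω hy]
  · unfold mellin
    rw [setIntegral_congr_fun (g := fun y : ℝ => ((y : ℂ) ^ ((s - 2) - 1) *
      Complex.exp (-(((1 : ℝ) : ℂ) * ((y : ℂ) * uu θ)))) * (1 / ((ω : ℂ) * uu θ ^ 2)))
      measurableSet_Ioi fun y hy => by simp only [smul_eq_mul]; rw [second hω hy]]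
    rw [integral_mul_const, int_term hθ one_pos hs2, Complex.ofReal_one, Complex.one_cpow, one_mul]
    have e : Complex.exp (-((θ : ℂ) * Complex.I * (s - 2))) =
        Complex.exp (-((θ : ℂ) * Complex.I * s)) * uu θ ^ 2 := by
      unfold uu
      rw [← Complex.exp_nat_mul, ← Complex.exp_add]
      congr 1
      push_cast
      ring
    rw [e]
    field_simp

/-- **MEL** -/
theorem t_MEL : S_MEL := by
  intro hG hS a ω θ ha hω hθ s hs
  obtain ⟨hcont, hsmall, c, hc, hlarge⟩ := t_BND a ω θ ha hω hθ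
  have hm : MellinConvergent (hr a ω θ) s :=
    mellinConvergent_of_isBigO_rpow_exp hc (hcont.locallyIntegrableOn measurableSet_Ioi) hlarge
      hsmall (by linarith)
  obtain ⟨hm2, e2⟩ := mellin_second (ω := ω) hω hθ hs
  have e1 := mellin_ff hG hS ha hω hθ hs
  have hsum : (fun y : ℝ => ff a ω ((y : ℂ) * uu θ)) = fun y : ℝ => hr a ω θ y +
      Complex.exp (-((y : ℂ) * uu θ)) / ((ω : ℂ) * ((y : ℂ) * uu θ) ^ 2) := by
    funext y
    unfold hr hh
    ring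
  have h4 : mellin (fun y : ℝ => ff a ω ((y : ℂ) * uu θ)) s = mellin (hr a ω θ) s +
      mellin (fun y : ℝ => Complex.exp (-((y : ℂ) * uu θ)) / ((ω : ℂ) * ((y : ℂ) * uu θ) ^ 2)) s := by
    rw [hsum]
    unfold mellin
    rw [← integral_add hm hm2]
    refine setIntegral_congr_fun measurableSet_Ioi fun y _ => ?_
    simp only [smul_eq_mul]
    ring
  rw [e1, e2] at h4
  linear_combination -h4

end Pool.Agent.L0h24.BZ
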