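import Pool.Agent.L0h52.BZ.Stm

/-!
# BZ, UNI: the Mellin transform for `Re s > 1`
-/

set_option autoImplicit false

open Filter Topology Asymptotics MeasureTheory Set

namespace Pool.Agent.L0h24.BZ

open Pool.Agent.L0h52.BZ

/-- the identity theorem in a convex open set -/
lemma ident {f g : ℂ → ℂ} {U V : Set ℂ} (hU : IsOpen U) (hUc : Convex ℝ U) (hV : IsOpen V)
    (hVU : V ⊆ U) (hVn : V.Nonempty) (hf : ∀ s ∈ U, DifferentiableAt ℂ f s)
    (hg : ∀ s ∈ U, DifferentiableAt ℂ g s) (h : ∀ s ∈ V, f s = g s) : ∀ s ∈ U, f s = g s := by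
  obtain ⟨z, hz⟩ := hVn
  have h1 : AnalyticOnNhd ℂ f U :=
    DifferentiableOn.analyticOnNhd (fun s hs => (hf s hs).differentiableWithinAt) hU
  have h2 : AnalyticOnNhd ℂ g U :=
    DifferentiableOn.analyticOnNhd (fun s hs => (hg s hs).differentiableWithinAt) hU
  exact h1.eqOn_of_preconnected_of_eventuallyEq h2 hUc.isPreconnected (hVU hz)
    (Filter.eventually_of_mem (hV.mem_nhds hz) h)

/-- **UNI** -/
theorem t_UNI : S_UNI := by
  intro hB hM hG hS a ω θ ha hω hθ Z hZ s hs hs0
  obtain ⟨hcont, hsmall, c, hc, hlarge⟩ := hB a ω θ ha hω hθ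
  have hω0 : (ω : ℂ) ≠ 0 := Complex.ofReal_ne_zero.2 hω.ne'
  have hf : ∀ s : ℂ, 1 < s.re → DifferentiableAt ℂ (mellin (hr a ω θ)) s := fun s hs =>
    mellin_differentiableAt_of_isBigO_rpow_exp hc (hcont.locallyIntegrableOn measurableSet_Ioi)
      hlarge hsmall hs
  have hg : ∀ s : ℂ, 1 < s.re → s.im ≠ 0 → DifferentiableAt ℂ (fun s : ℂ =>
      Complex.exp (-((θ : ℂ) * Complex.I * s)) *
      (Complex.Gamma s * Z s - Complex.Gamma (s - 2) / (ω : ℂ))) s := by
    intro s hs hs0
    have h1 : DifferentiableAt ℂ Complex.Gamma s := by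
      apply Complex.differentiableAt_Gamma
      rintro m rfl
      simp at hs0
    have h2 : DifferentiableAt ℂ Complex.Gamma (s - 2) := by
      apply Complex.differentiableAt_Gamma
      intro m hm
      have := congrArg Complex.im hm
      simp at this
      exact hs0 this
    have h3 : DifferentiableAt ℂ Z s := hZ.diff s hs (by rintro rfl; simp at hs0)
    have h4 : DifferentiableAt ℂ (fun s : ℂ => Complex.Gamma (s - 2)) s :=
      DifferentiableAt.comp s h2 (by fun_prop)
    exact (by fun_prop : DifferentiableAt ℂ (fun s : ℂ => Complex.exp (-((θ : ℂ) * Complex.I * s))) s).mul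
      ((h1.mul h3).sub (h4.div_const _))
  have key : ∀ s : ℂ, 2 < s.re → mellin (hr a ω θ) s = Complex.exp (-((θ : ℂ) * Complex.I * s)) *
      (Complex.Gamma s * Z s - Complex.Gamma (s - 2) / (ω : ℂ)) := by
    intro s hs
    rw [hM hG hS a ω θ ha hω hθ s hs, (hZ.sum s hs).tsum_eq]
  rcases lt_or_gt_of_ne hs0 with hlt | hgt
  · refine ident (U := {z : ℂ | 1 < z.re} ∩ {z : ℂ | z.im < 0})
      (V := {z : ℂ | 2 < z.re} ∩ {z : ℂ | z.im < 0})
      ((isOpen_lt continuous_const Complex.continuous_re).inter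
        (isOpen_lt Complex.continuous_im continuous_const))
      ((convex_halfSpace_re_gt 1).inter (convex_halfSpace_im_lt 0))
      ((isOpen_lt continuous_const Complex.continuous_re).inter
        (isOpen_lt Complex.continuous_im continuous_const))
      (fun z hz => ⟨show (1 : ℝ) < z.re from lt_trans one_lt_two hz.1, hz.2⟩) ⟨3 - Complex.I, ?_, ?_⟩
      (fun z hz => hf z hz.1) (fun z hz => hg z hz.1 (ne_of_lt hz.2)) (fun z hz => key z hz.1) s
      ⟨hs, hlt⟩
    · show (2 : ℝ) < (3 - Complex.I).re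
      simp
      norm_num
    · show (3 - Complex.I).im < 0
      simp
  · refine ident (U := {z : ℂ | 1 < z.re} ∩ {z : ℂ | 0 < z.im})
      (V := {z : ℂ | 2 < z.re} ∩ {z : ℂ | 0 < z.im})
      ((isOpen_lt continuous_const Complex.continuous_re).inter
        (isOpen_lt continuous_const Complex.continuous_im))
      ((convex_halfSpace_re_gt 1).inter (convex_halfSpace_im_gt 0))
      ((isOpen_lt continuous_const Complex.continuous_re).inter
        (isOpen_lt continuous_const Complex.continuous_im))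
      (fun z hz => ⟨show (1 : ℝ) < z.re from lt_trans one_lt_two hz.1, hz.2⟩) ⟨3 + Complex.I, ?_, ?_⟩
      (fun z hz => hf z hz.1) (fun z hz => hg z hz.1 (ne_of_gt hz.2)) (fun z hz => key z hz.1) s
      ⟨hs, hgt⟩
    · show (2 : ℝ) < (3 + Complex.I).re
      simp
      norm_num
    · show 0 < (3 + Complex.I).im
      simp

end Pool.Agent.L0h24.BZ
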